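import Pool.Agent.Helper37.KDB.Extra
import Pool.Agent.Helper37.KDB.St.P2
import Pool.Agent.Helper37.KDB.St.P4

/-! Project KDB, piece P5: the level of a kick. -/

set_option autoImplicit false

namespace KDB.I.P5

open MeasureTheory KDB
open scoped ENNReal

variable (p : Par)

private theorem ell_gt (hp : p.Ok) : (1 : ℝ) < p.ell := by
  have hL := hp.hL
  have hq := hp.hq
  have : 1 < p.ell := by
    unfold Par.ell
    exact Nat.one_lt_pow (by omega) (by omega)
  exact_mod_cast this

private theorem rho_pos (hp : p.Ok) (m : ℕ) : 0 < p.rho m := by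
  unfold Par.rho
  exact pow_pos (lt_trans one_pos (ell_gt p hp)) m

private theorem rho_mono (hp : p.Ok) : StrictMono p.rho := by
  intro a b hab
  unfold Par.rho
  exact pow_lt_pow_right₀ (ell_gt p hp) hab

private theorem kd_nonneg (hp : p.Ok) (w : V p.d) : 0 ≤ p.kd w := by
  unfold Par.kd
  split_ifs
  · exact mul_nonneg hp.hlam.le (Real.rpow_nonneg (Real.sqrt_nonneg _) _)
  · exact le_rfl

theorem kl_meas : Measurable p.kl := by
  classical
  have e : p.kl = fun w => ∑ k ∈ Finset.range p.n, if p.rho k ≤ ‖w‖ then 1 else 0 := by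
    funext w
    unfold Par.kl
    rw [Finset.card_filter]
  rw [e]
  refine Finset.measurable_sum _ fun k _ => ?_
  exact Measurable.ite (measurableSet_le measurable_const measurable_norm) measurable_const
    measurable_const

private theorem kl_le (w : V p.d) : p.kl w ≤ p.n := by
  classical
  unfold Par.kl
  exact (Finset.card_filter_le _ _).trans (by simp)

/-- the level of a kick -/
theorem kl_spec (hp : p.Ok) (w : V p.d) (hw : ‖w‖ < p.rho p.n) :
    p.kl w ≤ p.n ∧ ‖w‖ < p.rho (p.kl w) ∧ ∀ k, p.kl w = k + 1 → p.rho k ≤ ‖w‖ := by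
  classical
  have hex : ∃ k, ‖w‖ < p.rho k := ⟨p.n, hw⟩
  have hn : Nat.find hex ≤ p.n := Nat.find_min' hex hw
  have hK : p.kl w = Nat.find hex := by
    have e : ((Finset.range p.n).filter fun k => p.rho k ≤ ‖w‖) =
        Finset.range (Nat.find hex) := by
      ext k
      simp only [Finset.mem_filter, Finset.mem_range]
      constructor
      · rintro ⟨_, hk⟩
        exact (rho_mono p hp).lt_iff_lt.1 (lt_of_le_of_lt hk (Nat.find_spec hex))
      · intro hk
        exact ⟨lt_of_lt_of_le hk hn, not_lt.1 (Nat.find_min hex hk)⟩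
    unfold Par.kl
    rw [e, Finset.card_range]
  refine ⟨kl_le p w, ?_, ?_⟩
  · rw [hK]
    exact Nat.find_spec hex
  · intro k hk
    rw [hK] at hk
    exact not_lt.1 (Nat.find_min hex (by omega))

/-- kicks of level `≥ m`, weighted by a function of the level -/
theorem kick_lv (hp : p.Ok) (m : ℕ) (c : ℕ → ℝ) (hc0 : ∀ i ≤ m, c i = 0) (hc : ∀ i, 0 ≤ c i) :
    Integrable (fun w => p.kd w * c (p.kl w)) ∧
    ∫ w, p.kd w * c (p.kl w) ≤ ∑ k ∈ Finset.Ico m p.n,
      c (k + 1) * (p.lam * (2 ^ p.d * p.d * p.q) * ((p.L : ℝ) ^ k)⁻¹) := by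
  have hkd := kd_int p hp
  have hmeas : Measurable fun w : V p.d => c (p.kl w) :=
    (measurable_from_nat (f := c)).comp (kl_meas p)
  have hint : Integrable (fun w => p.kd w * c (p.kl w)) := by
    refine hkd.mul_bdd (c := ∑ i ∈ Finset.range (p.n + 1), c i) hmeas.aestronglyMeasurable ?_
    refine Filter.Eventually.of_forall fun w => ?_
    rw [Real.norm_of_nonneg (hc _)]
    exact Finset.single_le_sum (f := c) (fun i _ => hc i)
      (Finset.mem_range.2 (Nat.lt_succ_of_le (kl_le p w)))
  refine ⟨hint, ?_⟩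
  have hset : ∀ k, MeasurableSet {w : V p.d | p.rho k ≤ ‖w‖} := fun k =>
    measurableSet_le measurable_const measurable_norm
  have hpt : ∀ w : V p.d, p.kd w * c (p.kl w) ≤ ∑ k ∈ Finset.Ico m p.n,
      c (k + 1) * ({w : V p.d | p.rho k ≤ ‖w‖}.indicator p.kd w) := by
    intro w
    have hnn : ∀ k ∈ Finset.Ico m p.n,
        0 ≤ c (k + 1) * ({w : V p.d | p.rho k ≤ ‖w‖}.indicator p.kd w) := fun k _ =>
      mul_nonneg (hc _) (Set.indicator_nonneg (fun x _ => kd_nonneg p hp x) w)
    by_cases hkw : p.kl w ≤ m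
    · rw [hc0 _ hkw, mul_zero]
      exact Finset.sum_nonneg hnn
    · by_cases hw : ‖w‖ < p.rho p.n
      · obtain ⟨k, hk⟩ : ∃ k, p.kl w = k + 1 := ⟨p.kl w - 1, by omega⟩
        obtain ⟨h1, _, h3⟩ := kl_spec p hp w hw
        have h4 := h3 k hk
        have hmem : k ∈ Finset.Ico m p.n := Finset.mem_Ico.2 ⟨by omega, by omega⟩
        refine le_trans (le_of_eq ?_) (Finset.single_le_sum hnn hmem)
        have hw4 : w ∈ {w : V p.d | p.rho k ≤ ‖w‖} := h4
        rw [Set.indicator_of_mem hw4, hk, mul_comm]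
      · have h0 : p.kd w = 0 := by
          unfold Par.kd
          rw [if_neg]
          rintro ⟨_, h⟩
          exact hw h
        rw [h0, zero_mul]
        exact Finset.sum_nonneg hnn
  have hint2 : ∀ k ∈ Finset.Ico m p.n, Integrable fun w : V p.d =>
      c (k + 1) * ({w : V p.d | p.rho k ≤ ‖w‖}.indicator p.kd w) := fun k _ =>
    (hkd.indicator (hset k)).const_mul _
  calc ∫ w, p.kd w * c (p.kl w)
      ≤ ∫ w, ∑ k ∈ Finset.Ico m p.n,
          c (k + 1) * ({w : V p.d | p.rho k ≤ ‖w‖}.indicator p.kd w) :=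
        integral_mono hint (integrable_finset_sum _ hint2) hpt
    _ = ∑ k ∈ Finset.Ico m p.n, c (k + 1) * ∫ w in {w : V p.d | p.rho k ≤ ‖w‖}, p.kd w := by
        rw [integral_finset_sum _ hint2]
        refine Finset.sum_congr rfl fun k _ => ?_
        rw [integral_const_mul, integral_indicator (hset k)]
    _ ≤ _ := by
        refine Finset.sum_le_sum fun k _ => ?_
        refine mul_le_mul_of_nonneg_left ?_ (hc _)
        rw [← rho_rpow p hp k]
        exact kick_tail p hp (p.rho k) (rho_pos p hp k)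

end KDB.I.P5
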