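import Pool.Agent.Helper37.KDB.Extra
import Pool.Agent.Helper37.KDB.St.D1
import Pool.Agent.Helper37.KDB.St.D2
import Pool.Agent.Helper37.KDB.St.D10

/-! Project KDB, piece D14: the end of a block. -/

set_option autoImplicit false

namespace KDB.I.D14

open MeasureTheory KDB
open scoped ENNReal

variable (p : Par)

private theorem ell_pos (hp : p.Ok) : (0 : ℝ) < p.ell := by
  have hL := hp.hL
  have h1 : 0 < p.L := by omega
  have : 0 < p.ell := by unfold Par.ell; positivity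
  exact_mod_cast this

private theorem rho_pos (hp : p.Ok) (m : ℕ) : 0 < p.rho m := by
  unfold Par.rho
  exact pow_pos (ell_pos p hp) m

private theorem L_pos (hp : p.Ok) : (0 : ℝ) < p.L := by
  have hL := hp.hL
  have h1 : 0 < p.L := by omega
  exact_mod_cast h1

private theorem xi_pos (hp : p.Ok) (m : ℕ) : 0 < p.xi m := by
  unfold Par.xi
  exact pow_pos (mul_pos (ell_pos p hp) (L_pos p hp)) m

private theorem sz_nonneg (hp : p.Ok) (z : Nz p.d) : 0 ≤ p.sz z := by
  unfold Par.sz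
  split_ifs
  · exact le_rfl
  · exact norm_nonneg _
  · exact mul_nonneg (L_pos p hp).le (rho_pos p hp _).le

private theorem nse_nonneg (hp : p.Ok) (om : ℕ → Nz p.d) (m a c : ℕ) : 0 ≤ p.nse om m a c := by
  unfold Par.nse
  refine Finset.sum_nonneg fun j _ => ?_
  split_ifs
  · exact sz_nonneg p hp _
  · exact le_rfl

private theorem nse_le (hp : p.Ok) (om : ℕ → Nz p.d) (m a c nc : ℕ)
    (hnc : nc = Par.ncl (p.nse om m a c / p.rho m)) :
    p.nse om m a c ≤ 2 ^ nc * p.rho m := by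
  have h1 := (ncl_spec (p.nse om m a c / p.rho m)
    (div_nonneg (nse_nonneg p hp om m a c) (rho_pos p hp m).le)).1
  rw [← hnc] at h1
  exact (div_le_iff₀ (rho_pos p hp m)).1 h1

/-- END of a block -/
theorem end_close (hp : p.Ok) (om om' : ℕ → Nz p.d) (hv : ∀ j, p.Valid j (om j))
    (hv' : ∀ j, p.Valid j (om' j)) (m g a a' g' : ℕ) (hm : m < p.n)
    (hga : g ≤ a) (hae : a ≤ g') (hga' : g ≤ a') (hae' : a' ≤ g') (heg : g' ≤ g + p.tau m)
    (hun : ∀ j ∈ Finset.Ico a g', p.lv (om j) ≤ m)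
    (hun' : ∀ j ∈ Finset.Ico a' g', p.lv (om' j) ≤ m)
    (nc : ℕ) (hnc : nc = Par.ncl (p.nse om m a g' / p.rho m))
    (hnc' : nc = Par.ncl (p.nse om' m a' g' / p.rho m))
    (hr1 : Par.emd (64 * 2 ^ nc) (Par.fl (p.rho m) (p.run om g').2) =
      Par.emd (64 * 2 ^ nc) (Par.fl (p.rho m) (p.run om' g').2))
    (hr2 : Par.emd (64 * 2 ^ nc) (Par.fl (p.xi m) (p.run om g').1) =
      Par.emd (64 * 2 ^ nc) (Par.fl (p.xi m) (p.run om' g').1))
    (h1 : ‖(p.run om a).2 - (p.run om' a').2‖ ≤ p.rho m)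
    (h2 : ‖p.Pos om g a - p.Pos om' g a'‖ ≤ p.xi m) :
    ‖(p.run om g').2 - (p.run om' g').2‖ ≤ p.rho m ∧
      ‖(p.run om g').1 - (p.run om' g').1‖ ≤ p.xi m := by
  have hrho := rho_pos p hp m
  have hxi := xi_pos p hp m
  have hLm : (0 : ℝ) < (p.L : ℝ) ^ m := pow_pos (L_pos p hp) m
  have hP : (1 : ℝ) ≤ 2 ^ nc := one_le_pow₀ (by norm_num)
  have n1 := noise_le p hp om hv m g a g' hga hae heg hun
  have n2 := noise_le p hp om' hv' m g a' g' hga' hae' heg hun'
  have b1 := nse_le p hp om m a g' nc hnc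
  have b2 := nse_le p hp om' m a' g' nc hnc'
  have hxe : p.xi m = p.rho m * (p.L : ℝ) ^ m := xi_eq p m
  -- velocities
  have hdv : ‖(p.run om g').2 - (p.run om' g').2‖ ≤ (1 + 2 * 2 ^ nc) * p.rho m := by
    have e : (p.run om g').2 - (p.run om' g').2 = ((p.run om g').2 - (p.run om a).2) +
        ((p.run om a).2 - (p.run om' a').2) - ((p.run om' g').2 - (p.run om' a').2) := by abel
    calc ‖(p.run om g').2 - (p.run om' g').2‖ ≤ ‖((p.run om g').2 - (p.run om a).2) +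
        ((p.run om a).2 - (p.run om' a').2)‖ + ‖(p.run om' g').2 - (p.run om' a').2‖ := by
          rw [e]; exact norm_sub_le _ _
      _ ≤ (‖(p.run om g').2 - (p.run om a).2‖ + ‖(p.run om a).2 - (p.run om' a').2‖) +
          ‖(p.run om' g').2 - (p.run om' a').2‖ := by
          gcongr; exact norm_add_le _ _
      _ ≤ (2 ^ nc * p.rho m + p.rho m) + 2 ^ nc * p.rho m := by
          gcongr
          · exact n1.1.trans b1
          · exact n2.1.trans b2
      _ = (1 + 2 * 2 ^ nc) * p.rho m := by ring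
  have hdP : ‖p.Pos om g g' - p.Pos om' g g'‖ ≤ (1 + 2 * 2 ^ nc) * p.xi m := by
    have e : p.Pos om g g' - p.Pos om' g g' = (p.Pos om g g' - p.Pos om g a) +
        (p.Pos om g a - p.Pos om' g a') - (p.Pos om' g g' - p.Pos om' g a') := by abel
    calc ‖p.Pos om g g' - p.Pos om' g g'‖ ≤ ‖(p.Pos om g g' - p.Pos om g a) +
        (p.Pos om g a - p.Pos om' g a')‖ + ‖p.Pos om' g g' - p.Pos om' g a'‖ := by
          rw [e]; exact norm_sub_le _ _
      _ ≤ (‖p.Pos om g g' - p.Pos om g a‖ + ‖p.Pos om g a - p.Pos om' g a'‖) +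
          ‖p.Pos om' g g' - p.Pos om' g a'‖ := by
          gcongr; exact norm_add_le _ _
      _ ≤ ((2 ^ nc * p.rho m) * (p.L : ℝ) ^ m + p.xi m) +
          (2 ^ nc * p.rho m) * (p.L : ℝ) ^ m := by
          gcongr
          · exact n1.2.trans (mul_le_mul_of_nonneg_right b1 hLm.le)
          · exact n2.2.trans (mul_le_mul_of_nonneg_right b2 hLm.le)
      _ = (1 + 2 * 2 ^ nc) * p.xi m := by rw [hxe]; ring
  -- positions
  have hh0 : 0 ≤ p.h := by unfold Par.h; positivity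
  have hgg : g ≤ g' := hga.trans hae
  have ht0 : (0 : ℝ) ≤ p.h * ((g' : ℝ) - g) := by
    have : (g : ℝ) ≤ g' := by exact_mod_cast hgg
    exact mul_nonneg hh0 (by linarith)
  have ht1 : p.h * ((g' : ℝ) - g) ≤ (p.L : ℝ) ^ m := by
    rw [← h_tau p hp m]
    refine mul_le_mul_of_nonneg_left ?_ hh0
    have : (g' : ℝ) ≤ g + p.tau m := by exact_mod_cast heg
    linarith
  have hdx : ‖(p.run om g').1 - (p.run om' g').1‖ ≤ 2 * (1 + 2 * 2 ^ nc) * p.xi m := by
    have e : (p.run om g').1 - (p.run om' g').1 = (p.Pos om g g' - p.Pos om' g g') +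
        (p.h * ((g' : ℝ) - g)) • ((p.run om g').2 - (p.run om' g').2) := by
      unfold Par.Pos
      rw [smul_sub]
      abel
    calc ‖(p.run om g').1 - (p.run om' g').1‖ ≤ ‖p.Pos om g g' - p.Pos om' g g'‖ +
        ‖(p.h * ((g' : ℝ) - g)) • ((p.run om g').2 - (p.run om' g').2)‖ := by
          rw [e]; exact norm_add_le _ _
      _ = ‖p.Pos om g g' - p.Pos om' g g'‖ +
        (p.h * ((g' : ℝ) - g)) * ‖(p.run om g').2 - (p.run om' g').2‖ := by
          rw [norm_smul, Real.norm_of_nonneg ht0]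
      _ ≤ (1 + 2 * 2 ^ nc) * p.xi m + (p.L : ℝ) ^ m * ((1 + 2 * 2 ^ nc) * p.rho m) := by
          gcongr
      _ = 2 * (1 + 2 * 2 ^ nc) * p.xi m := by rw [hxe]; ring
  constructor
  · refine fl_close (64 * 2 ^ nc) (p.rho m) hrho _ _ hr1 ?_
    have : ‖(p.run om g').2 - (p.run om' g').2‖ / p.rho m ≤ 1 + 2 * 2 ^ nc :=
      (div_le_iff₀ hrho).2 hdv
    push_cast
    linarith
  · refine fl_close (64 * 2 ^ nc) (p.xi m) hxi _ _ hr2 ?_
    have : ‖(p.run om g').1 - (p.run om' g').1‖ / p.xi m ≤ 2 * (1 + 2 * 2 ^ nc) :=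
      (div_le_iff₀ hxi).2 hdx
    push_cast
    linarith

end KDB.I.D14
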